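import Mathlib
import Pool.Agent.H82.EOL.Final

set_option autoImplicit false

/-!
No fully black-box construction, from one-way permutations, of a hard-on-average distribution of
source-or-sink instances with a subexponential number of solutions exists. All definitions used by
the statement are in `Pool/Agent/H82/EOL/Model.lean` and `Pool/Agent/H82/SVL/Model.lean`.
-/

namespace Pool.Agent.Results.MP_e1dfa1_lc.FewSolutions

/-- For every bound `B` with `B n ≤ 2 ^ (n ^ ε)` for all `ε > 0` and all large `n`, there is no
fully black-box construction (`K = (G, R)`) from one-way permutations of a hard-on-average
distribution of source-or-sink instances with at most `B n` solutions, even if the sampler `G` and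
the reduction `R` are only required to make polynomially many queries of polynomial size. -/
theorem result : ∀ B : ℕ → ℕ, Pool.Agent.H82.EOL.Subexp B →
    ¬ ∃ K : Pool.Agent.H82.EOL.Construction, K.FullyBlackBox B :=
  Pool.Agent.H82.EOL.no_few_solutions

end Pool.Agent.Results.MP_e1dfa1_lc.FewSolutions
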