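import Pool.Agent.H30.SVL.Conv

/-!
No fully black-box construction of a hard-on-average distribution of valid
sink-of-verifiable-line instances from a one-way permutation exists. All definitions used by
the statement are in `Pool/Agent/H30/SVL/Defs.lean`.
-/

namespace Pool.Agent.Results.MP_e1dfa1_lc.NoBlackBoxSVL

open Pool.Agent.H30.SVL

/-- There is no fully black-box construction of a hard-on-average distribution
of valid SVL instances from one-way permutations, even if the sampler `G` and the reduction
`R` are only required to make polynomially many queries of polynomial size. -/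
theorem result : ¬ ∃ (Code : ℕ → Type) (S : ∀ n, Code n → Str n → Comp Str (Str n))
    (V : ∀ n, Code n → Str n → ℕ → Comp Str Bool) (L : ∀ n, Code n → ℕ) (cG cR : ℕ → ℕ)
    (G : ∀ n, Str (cG n) → Comp Str (Code n))
    (R : ∀ m, Str (cR m) → Str m → Comp (fun i => Str i ⊕ Code i) (Str m)),
    FullyBlackBox Code S V L cG cR G R := by
  rintro ⟨Code, S, V, L, cG, cR, G, R, h⟩
  exact main Code S V L cG cR G R h

end Pool.Agent.Results.MP_e1dfa1_lc.NoBlackBoxSVL
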